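import Pool.Agent.Helper88_SA.StmtP

namespace SA
namespace H20

open Filter Topology

variable {T x0 z : ℝ} {th : ℂ}

theorem per_lo (c : Ctx T x0 z th) : 48.8557 < per th ∧ per th < 48.8558 := by
  have h := abs_le.mp c.nr.per_enc
  constructor <;> [skip; skip] <;> norm_num at h ⊢ <;> linarith [h.1, h.2]

theorem Dt_out (c : ℤ) (h : c < -47) : Dt c = 0 := by
  unfold Dt
  rw [if_neg]
  omega

/-- C8 -/
theorem back (w : WinStmt) (d : DriftStmt) (cb : CycbStmt) (s : StepAStmt) : BackStmt := by
  intro T x0 z th c k hk t ht hc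
  obtain ⟨hp1, hp2⟩ := per_lo c
  obtain ⟨wm, wD, wp⟩ := w T x0 z th c k hk
  have hcb := cb T x0 z th c
  obtain ⟨y1, y2, y3, y4, -, -, -, -⟩ := hcb k
  have hone : ∀ i, i < k → |dph T x0 th i| ≤ 0.027 := by
    intro i hi
    refine le_trans ?_ (wp (cyc T x0 th i))
    refine Finset.single_le_sum (f := fun i => |dph T x0 th i|) (fun i _ => abs_nonneg _) ?_
    simp [hi]
  -- main induction
  have key : ∀ t, t ≤ k → cell T x0 th k + 8 * t < 88 →
      |ph T x0 th (k - t) - ph T x0 th k - t| ≤
        ∑ i ∈ (Finset.Ico (k - t) k).filter (fun i => cyc T x0 th i = cyc T x0 th k),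
          |dph T x0 th i| := by
    intro t
    induction t with
    | zero => intro _ _; simp
    | succ t ih =>
      intro h1 h2
      have ih' := ih (by omega) (by push_cast at h2; linarith)
      obtain ⟨i, hi⟩ : ∃ i, i = k - (t + 1) := ⟨_, rfl⟩
      have hi1 : k - t = i + 1 := by omega
      have hik : i < k := by omega
      have hsum : ∑ i ∈ (Finset.Ico (k - t) k).filter (fun i => cyc T x0 th i = cyc T x0 th k),
          |dph T x0 th i| ≤ 0.027 := by
        refine le_trans ?_ (wp (cyc T x0 th k))
        refine Finset.sum_le_sum_of_subset_of_nonneg ?_ (fun i _ _ => abs_nonneg _)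
        intro m hm
        simp only [Finset.mem_filter, Finset.mem_Ico, Finset.mem_range] at hm ⊢
        exact ⟨hm.1.2, hm.2⟩
      rw [hi1] at ih' hsum
      have hd : ph T x0 th i - ph T x0 th k - ((t + 1 : ℕ) : ℝ)
          = (ph T x0 th (i + 1) - ph T x0 th k - t) - dph T x0 th i := by
        unfold dph
        push_cast
        ring
      rw [← hi, hd]
      have hic : Finset.Ico i k = insert i (Finset.Ico (i + 1) k) := by
        ext m
        simp only [Finset.mem_insert, Finset.mem_Ico]
        omega
      rw [hic, Finset.filter_insert]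
      have tri := abs_sub (ph T x0 th (i + 1) - ph T x0 th k - (t : ℝ)) (dph T x0 th i)
      by_cases hcy : cyc T x0 th i = cyc T x0 th k
      · rw [if_pos hcy, Finset.sum_insert (by simp)]
        linarith
      · rw [if_neg hcy]
        -- the drift is zero
        have hz : dph T x0 th i = 0 := by
          have hmono := (d T x0 z th c k hk i k hik.le le_rfl).1
          have hlt : cyc T x0 th i ≤ cyc T x0 th k - 1 := by
            have := lt_of_le_of_ne hmono hcy
            omega
          obtain ⟨u1, u2, u3, u4, -, -, -, -⟩ := hcb i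
          have hph : ph T x0 th i ≤ ph T x0 th k + (t + 1) + 0.054 := by
            have a1 := (abs_le.mp (hone i hik)).1
            have a2 := (abs_le.mp (ih'.trans hsum)).2
            unfold dph at a1
            linarith
          have hpp : pp T x0 th i = ph T x0 th i + cyc T x0 th i * per th := rfl
          have hppk : pp T x0 th k = ph T x0 th k + cyc T x0 th k * per th := rfl
          have hltR : (cyc T x0 th i : ℝ) ≤ cyc T x0 th k - 1 := by exact_mod_cast hlt
          have h2R : (cell T x0 th k : ℝ) + 8 * (t + 1) ≤ 87 := by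
            have : cell T x0 th k + 8 * ((t : ℤ) + 1) ≤ 87 := by push_cast at h2; omega
            exact_mod_cast this
          have hmul : (cyc T x0 th i : ℝ) * per th ≤ (cyc T x0 th k - 1) * per th :=
            mul_le_mul_of_nonneg_right hltR (by linarith)
          have hppi : pp T x0 th i ≤ 11.054 - per th := by
            nlinarith
          have hcell : cell T x0 th i < -47 := by
            have : (cell T x0 th i : ℝ) < -47 := by nlinarith
            exact_mod_cast this
          obtain ⟨-, -, -, s4, -, -, -, s8, s9⟩ := s T x0 z th c i (fun m hm => hk m (by omega))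
          rw [Dt_out _ hcell] at s9
          have hD : Dh T x0 i = 0 := le_antisymm (by simpa using s9) s8
          rw [hD, mul_zero] at s4
          exact abs_eq_zero.mp (le_antisymm s4 (abs_nonneg _))
        rw [hz, sub_zero]
        exact ih'
  have hsum : ∑ i ∈ (Finset.Ico (k - t) k).filter (fun i => cyc T x0 th i = cyc T x0 th k),
      |dph T x0 th i| ≤ 0.027 := by
    refine le_trans ?_ (wp (cyc T x0 th k))
    refine Finset.sum_le_sum_of_subset_of_nonneg ?_ (fun i _ _ => abs_nonneg _)
    intro m hm
    simp only [Finset.mem_filter, Finset.mem_Ico, Finset.mem_range] at hm ⊢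
    exact ⟨hm.1.2, hm.2⟩
  have hmain := (key t ht hc).trans hsum
  have hmono := (d T x0 z th c k hk (k - t) k (by omega) le_rfl).1
  obtain ⟨v1, v2⟩ := abs_le.mp hmain
  have hppk : pp T x0 th k = ph T x0 th k + cyc T x0 th k * per th := rfl
  have hpp : pp T x0 th (k - t) = ph T x0 th (k - t) + cyc T x0 th (k - t) * per th := rfl
  obtain ⟨u1, u2, u3, u4, -, -, -, -⟩ := hcb (k - t)
  have hcR : (cell T x0 th k : ℝ) + 8 * t ≤ 87 := by
    have : cell T x0 th k + 8 * (t : ℤ) ≤ 87 := by omega
    exact_mod_cast this
  refine ⟨hmain, ?_, ?_⟩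
  · by_contra hcon
    have h1 : cyc T x0 th (k - t) ≤ cyc T x0 th k - 2 := by omega
    have h1R : (cyc T x0 th (k - t) : ℝ) ≤ cyc T x0 th k - 2 := by exact_mod_cast h1
    have hmul : (cyc T x0 th (k - t) : ℝ) * per th ≤ (cyc T x0 th k - 2) * per th :=
      mul_le_mul_of_nonneg_right h1R (by linarith)
    nlinarith
  · intro h80
    have h80R : (cell T x0 th k : ℝ) + 8 * t ≤ 79 := by
      have : cell T x0 th k + 8 * (t : ℤ) ≤ 79 := by omega
      exact_mod_cast this
    by_contra hcon
    have h1 : cyc T x0 th (k - t) ≤ cyc T x0 th k - 1 := by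
      have := lt_of_le_of_ne hmono hcon
      omega
    have h1R : (cyc T x0 th (k - t) : ℝ) ≤ cyc T x0 th k - 1 := by exact_mod_cast h1
    have hmul : (cyc T x0 th (k - t) : ℝ) * per th ≤ (cyc T x0 th k - 1) * per th :=
      mul_le_mul_of_nonneg_right h1R (by linarith)
    nlinarith

end H20
end SA
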