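import Pool.Agent.Helper20_SA.Back

namespace SA
namespace H20

open Filter Topology

variable {T x0 z : ℝ} {th : ℂ}

/-- C22 -/
theorem lows (wr : WrepStmt) (am : AmStmt) (rf : RefStmt) (d : DriftStmt) (cb : CycbStmt)
    (sa : StepAStmt) : LowsStmt := by
  intro T x0 z th c k hk j hj1 hj hA s hs
  obtain ⟨hp1, hp2⟩ := per_lo c
  obtain ⟨-, -, hr⟩ := rf T x0 z th c k hk
  have hjle : (j : ℤ) ≤ cyc T x0 th k := by omega
  obtain ⟨r1, r2, r3, r4, r5, r6, r7, r8⟩ := hr j hjle
  obtain ⟨q1, q2, q3, q4, q5, q6, q7, q8⟩ := hr (j + 1) (by push_cast; exact hj)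
  set r := ref T x0 th j with hrdef
  have hlen : r + 48 ≤ ref T x0 th (j + 1) := by
    rcases r7 hj with h | h <;> omega
  have hik : r + s < k := by omega
  have hcy : ∀ m, r ≤ m → m ≤ r + s → cyc T x0 th m = j := by
    intro m hm1 hm2
    have a1 := r6 m hm1 (by omega)
    have a2 := q5 m (by omega)
    push_cast at a2
    omega
  have hHi : HH T x0 z th (r + s) := fun i hi => hk i (by omega)
  have hPP := hk (r + s) hik
  have hne : xin T x0 th (1525 + (r + s)) ≠ 0 := by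
    intro h0
    have := hPP.Alo
    rw [h0, norm_zero] at this
    norm_num at this
  have hw := wr T x0 z th c (r + s) hHi hne
  have hCpos : 0 < Ck T x0 (r + s) := hPP.Cpos
  have hzhi := hPP.zhi
  -- amplitude
  have hAm := am T x0 z th c k hk j hjle (r + s) (by omega) hik.le
    (fun m hm1 hm2 => hcy m hm1 hm2.le)
  obtain ⟨-, A2, A3⟩ := hAm
  -- the phase
  have hdr := (d T x0 z th c k hk r (r + s) (by omega) hik.le).2.1
  rw [r2, hcy (r + s) (by omega) le_rfl] at hdr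
  obtain ⟨d1, d2⟩ := abs_le.mp hdr
  have hp_r : pp T x0 th r = ph T x0 th r + cyc T x0 th r * per th := rfl
  have hp_i : pp T x0 th (r + s) = ph T x0 th (r + s) + cyc T x0 th (r + s) * per th := rfl
  rw [r2] at hp_r
  rw [hcy (r + s) (by omega) le_rfl] at hp_i
  obtain ⟨u1, u2, u3, u4, u5, u6, -, -⟩ := cb T x0 z th c r
  obtain ⟨v1, v2, v3, v4, v5, v6, -, -⟩ := cb T x0 z th c (r + s)
  have hcast : (((cell T x0 th r).toNat : ℕ) : ℤ) = cell T x0 th r := Int.toNat_of_nonneg (by omega)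
  have hsR : (s : ℝ) ≤ 15 := by
    have : s ≤ 15 := by omega
    exact_mod_cast this
  have hs0 : (0 : ℝ) ≤ s := Nat.cast_nonneg _
  have hcellR : (79 : ℝ) ≤ cell T x0 th r := by exact_mod_cast r4
  push_cast at d1 d2
  have hlo := c.nc.lo (cell T x0 th r - 8 * s) (by omega) (by omega) (pp T x0 th (r + s))
    (by push_cast; linarith) (by push_cast; linarith)
  -- cos is nonnegative
  obtain ⟨o1, o2⟩ := abs_le.mp c.nr.omg_enc
  have hom1 : 0.1286 < omg th := by norm_num at o1 ⊢; linarith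
  have hom2 : omg th < 0.12861 := by norm_num at o2 ⊢; linarith
  have hpi := Real.pi_gt_d2
  have hpp_lo : -6 ≤ pp T x0 th (r + s) := by linarith
  have hcos0 : 0 ≤ Real.cos (omg th * pp T x0 th (r + s)) := by
    apply Real.cos_nonneg_of_neg_pi_div_two_le_of_le
    · nlinarith
    · nlinarith
  have hcos1 := Real.cos_le_one (omg th * pp T x0 th (r + s))
  set cs := Real.cos (omg th * pp T x0 th (r + s)) with hcs
  set S := ∑ m ∈ Finset.Ico r (r + s), zz T x0 m with hS
  have hS0 : 0 ≤ S := by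
    refine Finset.sum_nonneg fun m hm => ?_
    rw [Finset.mem_Ico] at hm
    exact (sa T x0 z th c m (fun i hi => hk i (by omega))).2.2.2.2.2.1
  have hW0 : 1 - 1.056 * cs ≤ (W0N (cell T x0 th r).toNat s : ℝ) / 10 ^ 10 := by
    have e1 : W0N (cell T x0 th r).toNat s
        = 10 ^ 10 - (10560 * cminN (cell T x0 th r - 8 * s)) / 10 ^ 4 := by
      unfold W0N
      rw [hcast]
    have e2 : (10560 * cminN (cell T x0 th r - 8 * s)) / 10 ^ 4 * 10 ^ 4
        ≤ 10560 * cminN (cell T x0 th r - 8 * s) := Int.ediv_mul_le _ (by norm_num)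
    have e3 : (((10560 * cminN (cell T x0 th r - 8 * s)) / 10 ^ 4 : ℤ) : ℝ) * 10 ^ 4
        ≤ 10560 * (cminN (cell T x0 th r - 8 * s) : ℝ) := by exact_mod_cast e2
    rw [e1]
    push_cast
    rw [le_div_iff₀ (by positivity)]
    rw [div_le_iff₀ (by positivity)] at hlo
    nlinarith
  have hmul : (1.056 - S) * cs ≤ Am T x0 th (r + s) * cs :=
    mul_le_mul_of_nonneg_right (by linarith) hcos0
  have hScs : S * cs ≤ S := by nlinarith
  have hbr : 1 - Am T x0 th (r + s) * cs + ztn T x0 z (1525 + (r + s)) + 4.5 / 10 ^ 4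
      ≤ (W0N (cell T x0 th r).toNat s : ℝ) / 10 ^ 10 + 7.5 / 10 ^ 4 + S := by
    have : ztn T x0 z (1525 + (r + s)) ≤ 3 / 10 ^ 4 := hzhi.le
    nlinarith
  have hw2 := (abs_le.mp hw).2
  have hfin : Ck T x0 (r + s) * (1 - Am T x0 th (r + s) * cs + ztn T x0 z (1525 + (r + s))
      + 4.5 / 10 ^ 4) ≤ Ck T x0 (r + s) * ((W0N (cell T x0 th r).toNat s : ℝ) / 10 ^ 10
        + 7.5 / 10 ^ 4 + S) := mul_le_mul_of_nonneg_left hbr hCpos.le
  linarith

end H20
end SA
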